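import Pool.Agent.Q224.DS.Time

/-!
# MP_959b39, Q2: dual separators for two terminals

Dual Separator for Two Terminals is W[1]-hard for the size `k` of the separator.
-/

set_option autoImplicit false

namespace Pool.Agent.Results.MP_959b39_lc.TwoTerminalsHard

open Pool.Agent.H633R2

/-- The blue graph of the edge-bicolored graph `(M, R)`: `M` is the adjacency matrix of a graph
`G`, and an edge `uv` of `G` is red if entry `(u, v)` or `(v, u)` of `R` is true, and blue
otherwise. -/
def blueGraph (M R : List (List Bool)) : SimpleGraph (Fin M.length) where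
  Adj u v := (graphOf M).Adj u v ∧ ¬ (entry R u v = true ∨ entry R v u = true)
  symm := ⟨fun _ _ h => ⟨h.1.symm, fun h2 => h.2 h2.symm⟩⟩
  loopless := ⟨fun _ h => (graphOf M).irrefl h.1⟩

/-- The red graph of the edge-bicolored graph `(M, R)`. -/
def redGraph (M R : List (List Bool)) : SimpleGraph (Fin M.length) where
  Adj u v := (graphOf M).Adj u v ∧ (entry R u v = true ∨ entry R v u = true)
  symm := ⟨fun _ _ h => ⟨h.1.symm, h.2.symm⟩⟩
  loopless := ⟨fun _ h => (graphOf M).irrefl h.1⟩

/-- `S` contains neither `s` nor `t`, and `s` and `t` are not connected in `G - S`. -/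
def Separates {V : Type*} (G : SimpleGraph V) (S : Finset V) (s t : V) : Prop :=
  ∃ (hs : s ∉ S) (ht : t ∉ S), ¬ (G.induce {v | v ∉ S}).Reachable ⟨s, hs⟩ ⟨t, ht⟩

/-- Dual Separator for Two Terminals. An instance is `(M, R, s, t, k)`. -/
def DualSeparatorTwoTerminals (x : List (List Bool) × List (List Bool) × ℕ × ℕ × ℕ) : Prop :=
  ∃ (hs : x.2.2.1 < x.1.length) (ht : x.2.2.2.1 < x.1.length), x.2.2.1 ≠ x.2.2.2.1 ∧
    ∃ S : Finset (Fin x.1.length), S.card ≤ x.2.2.2.2 ∧
      Separates (blueGraph x.1 x.2.1) S ⟨x.2.2.1, hs⟩ ⟨x.2.2.2.1, ht⟩ ∧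
      Separates (redGraph x.1 x.2.1) S ⟨x.2.2.1, hs⟩ ⟨x.2.2.2.1, ht⟩

/-- The parameter `k`. -/
def paramK (x : List (List Bool) × List (List Bool) × ℕ × ℕ × ℕ) : ℕ := x.2.2.2.2

/-- Dual Separator for Two Terminals, parameterized by `k`, is W[1]-hard. -/
theorem result : W1Hard paramK DualSeparatorTwoTerminals := Pool.Agent.NPC.Q224DS.w1Hard

end Pool.Agent.Results.MP_959b39_lc.TwoTerminalsHard
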